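import Pool.Agent.D0H73.OP.Stm

/-! # the field riesz of `Pkg` (project OP of helper73) -/

set_option autoImplicit false

open Finset

namespace Pool.Agent.D0H51.OP

open Pool.Agent.D0H73.OP
open Pool.Agent.V1192.UOD (V)
open Pool.Agent.V1192

section
variable {p : ℕ} [Fact p.Prime] {N : ℕ}

open Classical in
theorem card_span (S : Finset (V p N)) :
    (univ.filter (fun l : V p N => l ∈ Submodule.span (ZMod p) (S : Set (V p N)))).card ≤ p ^ S.card := by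
  have h1 : univ.filter (fun l : V p N => l ∈ Submodule.span (ZMod p) (S : Set (V p N))) ⊆
      (univ : Finset (S → ZMod p)).image (fun f => ∑ i : S, f i • (i : V p N)) := by
    intro l hl
    rw [mem_filter] at hl
    obtain ⟨f, hf⟩ := Submodule.mem_span_finset'.1 hl.2
    rw [mem_image]
    exact ⟨f, mem_univ _, hf⟩
  refine (card_le_card h1).trans (card_image_le.trans ?_)
  rw [card_univ, Fintype.card_fun, ZMod.card, Fintype.card_coe]

open Classical in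
theorem sum_near (J : Finset (Fin N)) (S : Finset (V p N)) (M : ℕ)
    (hsp : ∀ l ∈ Submodule.span (ZMod p) (S : Set (V p N)), l ≠ 0 → M < UOD.wt J l) (q : ℝ)
    (hq : |q| ≤ 1 / 8) (v : V p N) :
    ‖∑ l ∈ univ.filter (fun l : V p N => l ∈ Submodule.span (ZMod p) (S : Set (V p N))),
        (q : ℂ) ^ UOD.wt J (v - l) - (q : ℂ) ^ UOD.dst J S v‖ ≤ (p : ℝ) ^ S.card * (1 / 8) ^ (M / 2) := by
  obtain ⟨L, hL⟩ : ∃ L, L = univ.filter (fun l : V p N => l ∈ Submodule.span (ZMod p) (S : Set (V p N))) :=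
    ⟨_, rfl⟩
  rw [← hL]
  have hn : UOD.near J S v ∈ L := by
    rw [hL, mem_filter]
    exact ⟨mem_univ _, UOD.near_mem v⟩
  have hnw : UOD.wt J (v - UOD.near J S v) = UOD.dst J S v := UOD.near_wt v
  rw [← Finset.add_sum_erase L _ hn, hnw, add_sub_cancel_left]
  have hq0 : ‖(q : ℂ)‖ = |q| := by rw [Complex.norm_real, Real.norm_eq_abs]
  have h1 : ∀ l ∈ L.erase (UOD.near J S v), ‖(q : ℂ) ^ UOD.wt J (v - l)‖ ≤ (1 / 8 : ℝ) ^ (M / 2) := by
    intro l hl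
    rw [mem_erase] at hl
    have hlS : l ∈ Submodule.span (ZMod p) (S : Set (V p N)) := by
      have := hl.2
      rw [hL, mem_filter] at this
      exact this.2
    have h2 := hsp (UOD.near J S v - l) (Submodule.sub_mem _ (UOD.near_mem v) hlS)
      (sub_ne_zero.2 (Ne.symm hl.1))
    have h3 : UOD.near J S v - l = (v - l) + -(v - UOD.near J S v) := by abel
    rw [h3] at h2
    have h4 := UOD.wt_add J (v - l) (-(v - UOD.near J S v))
    rw [UOD.wt_neg, hnw] at h4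
    have h5 : UOD.dst J S v ≤ UOD.wt J (v - l) := UOD.dst_le hlS
    have h6 : M / 2 ≤ UOD.wt J (v - l) := by omega
    rw [norm_pow, hq0]
    calc |q| ^ UOD.wt J (v - l) ≤ (1 / 8 : ℝ) ^ UOD.wt J (v - l) := pow_le_pow_left₀ (abs_nonneg q) hq _
      _ ≤ (1 / 8 : ℝ) ^ (M / 2) := pow_le_pow_of_le_one (by norm_num) (by norm_num) h6
  refine (norm_sum_le _ _).trans ((Finset.sum_le_sum h1).trans ?_)
  rw [Finset.sum_const, nsmul_eq_mul]
  refine mul_le_mul_of_nonneg_right ?_ (by positivity)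
  have h7 : (L.erase (UOD.near J S v)).card ≤ p ^ S.card := by
    refine (Finset.card_le_card (Finset.erase_subset _ _)).trans ?_
    rw [hL]
    exact card_span S
  exact_mod_cast h7

theorem riesz_part (hR : S_RIESZ) (J : Finset (Fin N)) (S : Finset (V p N)) (M : ℕ)
    (hsp : ∀ l ∈ Submodule.span (ZMod p) (S : Set (V p N)), l ≠ 0 → M < UOD.wt J l) (q : ℝ)
    (hq : |q| ≤ 1 / (8 * p)) (hε : (p : ℝ) ^ S.card * (1 / 8) ^ (M / 2) ≤ 1 / 2) :
    ∃ ρ : V p N → ℝ, (∀ u, 0 ≤ ρ u) ∧ ∑ u, ρ u = 1 ∧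
      ∀ v, ‖∑ u, (ρ u : ℂ) * chr u v - (q : ℂ) ^ UOD.dst J S v‖ ≤
        4 * ((p : ℝ) ^ S.card * (1 / 8) ^ (M / 2)) := by
  classical
  have hp1 : (1 : ℝ) ≤ p := by exact_mod_cast (Fact.out : p.Prime).one_lt.le
  have hq8 : |q| ≤ 1 / 8 := by
    refine hq.trans ?_
    apply div_le_div_of_nonneg_left <;> linarith
  obtain ⟨ε, hεe⟩ : ∃ ε : ℝ, ε = (p : ℝ) ^ S.card * (1 / 8) ^ (M / 2) := ⟨_, rfl⟩
  have hε0 : 0 ≤ ε := by rw [hεe]; positivity
  obtain ⟨ρ, hρ0, hρ⟩ := hR p N J S q hq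
  have hA : ∀ v, ‖∑ u, (ρ u : ℂ) * chr u v - (q : ℂ) ^ UOD.dst J S v‖ ≤ ε := by
    intro v
    rw [hρ v, hεe]
    convert sum_near J S M hsp q hq8 v
  rw [← hεe] at hε ⊢
  obtain ⟨Z, hZ⟩ : ∃ Z : ℝ, Z = ∑ u, ρ u := ⟨_, rfl⟩
  have hchr0 : ∀ u : V p N, chr u 0 = 1 := by
    intro u
    unfold chr
    simp
  have hZ1 : ‖(Z : ℂ) - 1‖ ≤ ε := by
    have h1 := hA 0
    rw [UOD.dst_zero, pow_zero] at h1
    have h2 : ∑ u, (ρ u : ℂ) * chr u 0 = (Z : ℂ) := by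
      rw [hZ]
      push_cast
      exact Finset.sum_congr rfl fun u _ => by rw [hchr0, mul_one]
    rwa [h2] at h1
  have hZr : |Z - 1| ≤ ε := by
    have h1 : (Z : ℂ) - 1 = ((Z - 1 : ℝ) : ℂ) := by push_cast; ring
    rw [h1, Complex.norm_real, Real.norm_eq_abs] at hZ1
    exact hZ1
  have hZ2 : 1 / 2 ≤ Z := by
    have := (abs_le.1 hZr).1
    linarith
  have hZ0 : 0 < Z := by linarith
  refine ⟨fun u => ρ u / Z, fun u => div_nonneg (hρ0 u) hZ0.le, ?_, fun v => ?_⟩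
  · rw [← Finset.sum_div, ← hZ, div_self hZ0.ne']
  · have hZc : (Z : ℂ) ≠ 0 := by exact_mod_cast hZ0.ne'
    have e1 : ∑ u, ((ρ u / Z : ℝ) : ℂ) * chr u v - (q : ℂ) ^ UOD.dst J S v =
        (1 / (Z : ℂ)) * ((∑ u, (ρ u : ℂ) * chr u v - (q : ℂ) ^ UOD.dst J S v) -
          ((Z : ℂ) - 1) * (q : ℂ) ^ UOD.dst J S v) := by
      have e2 : ∑ u, ((ρ u / Z : ℝ) : ℂ) * chr u v = (1 / (Z : ℂ)) * ∑ u, (ρ u : ℂ) * chr u v := by
        rw [Finset.mul_sum]
        refine Finset.sum_congr rfl fun u _ => ?_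
        push_cast
        ring
      rw [e2]
      field_simp
      ring
    have hqn : ‖(q : ℂ) ^ UOD.dst J S v‖ ≤ 1 := by
      rw [norm_pow, Complex.norm_real, Real.norm_eq_abs]
      exact pow_le_one₀ (abs_nonneg q) (by linarith)
    rw [e1, norm_mul]
    have h3 : ‖(1 / (Z : ℂ))‖ ≤ 2 := by
      rw [norm_div, norm_one, Complex.norm_real, Real.norm_eq_abs, abs_of_pos hZ0]
      rw [div_le_iff₀ hZ0]
      linarith
    have h4 : ‖(∑ u, (ρ u : ℂ) * chr u v - (q : ℂ) ^ UOD.dst J S v) -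
          ((Z : ℂ) - 1) * (q : ℂ) ^ UOD.dst J S v‖ ≤ ε + ε * 1 := by
      refine (norm_sub_le _ _).trans (add_le_add (hA v) ?_)
      rw [norm_mul]
      exact mul_le_mul hZ1 hqn (norm_nonneg _) hε0
    calc _ ≤ 2 * (ε + ε * 1) := mul_le_mul h3 h4 (norm_nonneg _) (by norm_num)
      _ = 4 * ε := by ring

end

end Pool.Agent.D0H51.OP
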