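import Pool.Agent.D0H73.OP.Stm

/-! # RIESZ: the Riesz product identity (project OP of helper73) -/

set_option autoImplicit false

open Finset

namespace Pool.Agent.D0H51.OP

open Pool.Agent.D0H73.OP
open Pool.Agent.V1192.UOD (V)
open Pool.Agent.V1192

section
variable {p : ℕ} [Fact p.Prime] {N : ℕ}

open Classical in
/-- the Fourier coefficients of one coordinate -/
noncomputable def ph (J : Finset (Fin N)) (q : ℝ) (j : Fin N) (c : ZMod p) : ℝ :=
  if j ∈ J then (if c = 0 then 1 else 0) else (1 - q) / p + (if c = 0 then q else 0)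

theorem ph_nonneg (J : Finset (Fin N)) (q : ℝ) (hq : |q| ≤ 1 / (8 * p)) (j : Fin N) (c : ZMod p) :
    0 ≤ ph J q j c := by
  have hp1 : (1 : ℝ) ≤ p := by exact_mod_cast (Fact.out : p.Prime).one_lt.le
  have h8 : 1 / (8 * (p : ℝ)) ≤ 1 / 8 := by
    apply div_le_div_of_nonneg_left <;> linarith
  have hq1 := (abs_le.1 hq).1
  have hq2 := (abs_le.1 hq).2
  unfold ph
  split_ifs with h1 h2 h2
  · exact zero_le_one
  · exact le_rfl
  · have e1 : (1 - q) / p + q = (1 - q + p * q) / p := by field_simp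
    rw [e1]
    apply div_nonneg _ (by linarith)
    have e2 : (p : ℝ) * q ≥ - (1 / 8) := by
      have : (p : ℝ) * (-(1 / (8 * p))) ≤ p * q := mul_le_mul_of_nonneg_left hq1 (by linarith)
      have e3 : (p : ℝ) * (-(1 / (8 * p))) = -(1 / 8) := by field_simp
      linarith
    linarith
  · rw [add_zero]
    apply div_nonneg <;> linarith

theorem orth (a : ZMod p) : ∑ c : ZMod p, (ZMod.stdAddChar (c * a) : ℂ) = if a = 0 then (p : ℂ) else 0 := by
  have h := AddChar.sum_mulShift a (ZMod.isPrimitive_stdAddChar p)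
  rw [h, ZMod.card]
  split_ifs <;> simp

theorem loc (J : Finset (Fin N)) (q : ℝ) (j : Fin N) (a : ZMod p) :
    ∑ c : ZMod p, (ph J q j c : ℂ) * ZMod.stdAddChar (c * a) = if j ∉ J ∧ a ≠ 0 then (q : ℂ) else 1 := by
  have hp0 : (p : ℂ) ≠ 0 := by exact_mod_cast (Fact.out : p.Prime).ne_zero
  by_cases hj : j ∈ J
  · have e1 : ∀ c : ZMod p, (ph J q j c : ℂ) * ZMod.stdAddChar (c * a) = if c = 0 then 1 else 0 := by
      intro c
      unfold ph
      rw [if_pos hj]
      split_ifs with h
      · rw [h, zero_mul, AddChar.map_zero_eq_one]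
        simp
      · simp
    rw [Finset.sum_congr rfl fun c _ => e1 c, Finset.sum_ite_eq' univ 0, if_pos (mem_univ _),
      if_neg (by tauto)]
  · have e1 : ∀ c : ZMod p, (ph J q j c : ℂ) * ZMod.stdAddChar (c * a) =
        ((1 - q) / p : ℂ) * ZMod.stdAddChar (c * a) + if c = 0 then (q : ℂ) else 0 := by
      intro c
      unfold ph
      rw [if_neg hj]
      split_ifs with h
      · rw [h, zero_mul, AddChar.map_zero_eq_one]
        push_cast
        ring
      · push_cast
        ring
    rw [Finset.sum_congr rfl fun c _ => e1 c, Finset.sum_add_distrib, ← Finset.mul_sum, orth,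
      Finset.sum_ite_eq' univ 0, if_pos (mem_univ _)]
    by_cases ha : a = 0
    · rw [if_pos ha, if_neg (by tauto)]
      field_simp
      ring
    · rw [if_neg ha, if_pos ⟨hj, ha⟩]
      ring

theorem chr_prod (u v : V p N) : chr u v = ∏ j, (ZMod.stdAddChar (u j * v j) : ℂ) := by
  classical
  have h : ∀ s : Finset (Fin N), (ZMod.stdAddChar (∑ j ∈ s, u j * v j) : ℂ) =
      ∏ j ∈ s, (ZMod.stdAddChar (u j * v j) : ℂ) := by
    intro s
    induction s using Finset.induction_on with
    | empty => simp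
    | insert j s hj ih => rw [Finset.sum_insert hj, Finset.prod_insert hj, AddChar.map_add_eq_mul, ih]
  exact h univ

theorem key (J : Finset (Fin N)) (q : ℝ) (v : V p N) :
    ∑ u : V p N, ((∏ j, ph J q j (u j) : ℝ) : ℂ) * chr u v = (q : ℂ) ^ UOD.wt J v := by
  classical
  have e1 : ∀ u : V p N, ((∏ j, ph J q j (u j) : ℝ) : ℂ) * chr u v =
      ∏ j, ((ph J q j (u j) : ℂ) * ZMod.stdAddChar (u j * v j)) := by
    intro u
    rw [chr_prod, Finset.prod_mul_distrib]
    push_cast
    rfl
  rw [Finset.sum_congr rfl fun u _ => e1 u]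
  have e2 := Finset.prod_univ_sum (fun _ : Fin N => (univ : Finset (ZMod p)))
    (fun j c => (ph J q j c : ℂ) * ZMod.stdAddChar (c * v j))
  rw [Fintype.piFinset_univ] at e2
  rw [← e2, Finset.prod_congr rfl fun j _ => loc J q j (v j), Finset.prod_ite, Finset.prod_const,
    Finset.prod_const_one, mul_one]
  rfl

theorem chr_add (u v v' : V p N) : chr u (v + v') = chr u v * chr u v' := by
  unfold chr
  rw [← AddChar.map_add_eq_mul, ← Finset.sum_add_distrib]
  congr 2
  funext j
  rw [Pi.add_apply, mul_add]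

theorem chr_ne_one {u v : V p N} (h : ∑ j, u j * v j ≠ 0) : chr u (-v) ≠ 1 := by
  intro h1
  unfold chr at h1
  rw [← AddChar.map_zero_eq_one (ZMod.stdAddChar (N := p))] at h1
  have h2 := ZMod.injective_stdAddChar h1
  apply h
  have h3 : ∑ j, u j * (-v) j = -∑ j, u j * v j := by
    rw [← Finset.sum_neg_distrib]
    refine Finset.sum_congr rfl fun j _ => ?_
    rw [Pi.neg_apply, mul_neg]
  rw [h3, neg_eq_zero] at h2
  exact h2

open Classical in
/-- the sum over the span -/
noncomputable def KK (L : Finset (V p N)) (u : V p N) : ℝ :=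
  if ∀ l ∈ L, ∑ j, u j * l j = 0 then (L.card : ℝ) else 0

open Classical in
theorem kk_eq (S : Finset (V p N)) (u : V p N) :
    ∑ l ∈ univ.filter (fun l : V p N => l ∈ Submodule.span (ZMod p) (S : Set (V p N))), chr u (-l) =
      (KK (univ.filter (fun l : V p N => l ∈ Submodule.span (ZMod p) (S : Set (V p N)))) u : ℂ) := by
  obtain ⟨L, hL⟩ : ∃ L, L = univ.filter (fun l : V p N => l ∈ Submodule.span (ZMod p) (S : Set (V p N))) :=
    ⟨_, rfl⟩
  rw [← hL]
  unfold KK
  by_cases h : ∀ l ∈ L, ∑ j, u j * l j = 0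
  · rw [if_pos h]
    have e1 : ∀ l ∈ L, chr u (-l) = 1 := by
      intro l hl
      unfold chr
      have h3 : ∑ j, u j * (-l) j = -∑ j, u j * l j := by
        rw [← Finset.sum_neg_distrib]
        refine Finset.sum_congr rfl fun j _ => ?_
        rw [Pi.neg_apply, mul_neg]
      rw [h3, h l hl, neg_zero, AddChar.map_zero_eq_one]
    rw [Finset.sum_congr rfl e1]
    simp
  · rw [if_neg h]
    push Not at h
    obtain ⟨l0, hl0, h0⟩ := h
    have e1 : ∑ l ∈ L, chr u (-l) = ∑ l ∈ L, chr u (-(l + l0)) := by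
      symm
      refine Finset.sum_nbij' (fun l => l + l0) (fun l => l - l0) ?_ ?_ ?_ ?_ ?_
      · intro l hl
        rw [hL, mem_filter] at hl hl0 ⊢
        exact ⟨mem_univ _, Submodule.add_mem _ hl.2 hl0.2⟩
      · intro l hl
        rw [hL, mem_filter] at hl hl0 ⊢
        exact ⟨mem_univ _, Submodule.sub_mem _ hl.2 hl0.2⟩
      · intro l _
        simp
      · intro l _
        simp
      · intro l _
        rfl
    have e2 : ∑ l ∈ L, chr u (-(l + l0)) = (∑ l ∈ L, chr u (-l)) * chr u (-l0) := by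
      rw [Finset.sum_mul]
      refine Finset.sum_congr rfl fun l _ => ?_
      rw [← chr_add]
      congr 1
      abel
    rw [e2] at e1
    have h1 := chr_ne_one h0
    have h2 : (∑ l ∈ L, chr u (-l)) * (chr u (-l0) - 1) = 0 := by
      rw [mul_sub, mul_one, ← e1, sub_self]
    rcases mul_eq_zero.1 h2 with h3 | h3
    · rw [h3]
      simp
    · exact absurd (sub_eq_zero.1 h3) h1

end

theorem t_RIESZ : S_RIESZ := by
  classical
  intro p _ N J S q hq
  obtain ⟨L, hL⟩ : ∃ L, L = univ.filter (fun l : V p N => l ∈ Submodule.span (ZMod p) (S : Set (V p N))) :=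
    ⟨_, rfl⟩
  refine ⟨fun u => (∏ j, ph J q j (u j)) * KK L u, fun u => ?_, fun v => ?_⟩
  · refine mul_nonneg (Finset.prod_nonneg fun j _ => ph_nonneg J q hq j _) ?_
    unfold KK
    split_ifs
    · positivity
    · exact le_rfl
  · have e1 : ∀ u : V p N, (((∏ j, ph J q j (u j)) * KK L u : ℝ) : ℂ) * chr u v =
        ∑ l ∈ L, ((∏ j, ph J q j (u j) : ℝ) : ℂ) * chr u (v - l) := by
      intro u
      have h1 : ∑ l ∈ L, chr u (-l) = (KK L u : ℂ) := by
        rw [hL]
        convert kk_eq S u
      rw [Complex.ofReal_mul, ← h1, ← Finset.mul_sum]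
      have h2 : ∑ l ∈ L, chr u (v - l) = (∑ l ∈ L, chr u (-l)) * chr u v := by
        rw [Finset.sum_mul]
        refine Finset.sum_congr rfl fun l _ => ?_
        rw [← chr_add]
        congr 1
        abel
      rw [h2]
      ring
    have e2 : ∑ u : V p N, (((∏ j, ph J q j (u j)) * KK L u : ℝ) : ℂ) * chr u v =
        ∑ l ∈ L, (q : ℂ) ^ UOD.wt J (v - l) := by
      rw [Finset.sum_congr rfl fun u _ => e1 u, Finset.sum_comm]
      exact Finset.sum_congr rfl fun l _ => key J q (v - l)
    rw [e2, hL]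

end Pool.Agent.D0H51.OP
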